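import Mathlib

/-!
# Common definitions and the interface Theorem M (MP_15d50e_gt)
-/

open Complex Set
open scoped ComplexConjugate Real

namespace FB

/-- The Gaussian integer `p.1 + p.2 i` as a complex number. -/
noncomputable def lp (p : ℤ × ℤ) : ℂ := (p.1 : ℂ) + (p.2 : ℂ) * I

/-- The open set of points at distance `> s` from all lattice points. -/
def US (s : ℝ) : Set ℂ := {x | ∀ p : ℤ × ℤ, s < ‖x - lp p‖}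

/-- The closed set of points at distance `≥ t` from all lattice points. -/
def ES (t : ℝ) : Set ℂ := {x | ∀ p : ℤ × ℤ, t ≤ ‖x - lp p‖}

/-- The character `p ↦ exp (i κ·p)`, `κ = κ.re + i κ.im`. -/
noncomputable def chi (κ : ℂ) (p : ℤ × ℤ) : ℂ :=
  cexp (((κ.re * p.1 + κ.im * p.2 : ℝ) : ℂ) * I)

/-- Euclidean inner product `κ·x` of the plane. -/
def dotp (κ x : ℂ) : ℝ := κ.re * x.re + κ.im * x.im

/-- Main momentum `(2π/N)(1,2)`. -/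
noncomputable def kap (N : ℕ) : ℂ := ((2 * π / N : ℝ) : ℂ) * (1 + 2 * I)

/-- Second momentum `(2π/N)(1,0)`. -/
noncomputable def kap' (N : ℕ) : ℂ := ((2 * π / N : ℝ) : ℂ)

/-- The real linear map `w ↦ a w + b conj w`. -/
noncomputable def dpair (a b : ℂ) : ℂ →L[ℝ] ℂ :=
  ContinuousLinearMap.mul ℝ ℂ a + (ContinuousLinearMap.mul ℝ ℂ b).comp (conjCLE : ℂ →L[ℝ] ℂ)

@[simp] theorem dpair_apply (a b w : ℂ) : dpair a b w = a * w + b * conj w := by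
  simp [dpair]

/-- `X(x) = x + t²/conj x`. -/
noncomputable def Xmap (t : ℝ) (x : ℂ) : ℂ := x + (t : ℂ) ^ 2 / conj x

/-- Model of `ψ` near the hole: `1 + i κ·X(x) - √2 |κ| t log(|x|/t)`. -/
noncomputable def modelPsi (κ : ℂ) (t : ℝ) (x : ℂ) : ℂ :=
  1 + (dotp κ (Xmap t x) : ℂ) * I - ((Real.sqrt 2 * ‖κ‖ * t * Real.log (‖x‖ / t) : ℝ) : ℂ)

/-- Model of `ω = ∂_z ψ` near the hole. -/
noncomputable def modelOm (κ : ℂ) (t : ℝ) (x : ℂ) : ℂ :=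
  (1 / 2 : ℂ) * (I * conj κ - I * κ * (t : ℂ) ^ 2 / x ^ 2 - ((Real.sqrt 2 * ‖κ‖ * t : ℝ) : ℂ) / x)

/-- A Bloch-harmonic function with momentum `κ` on `US s`, with `∂_z`-derivative `ω`:
`dψ(z) w = ω(z) w - conj(ω(-z)) conj w`, `ψ(z+p) = χ(p) ψ(z)`, `ψ(-z) = conj ψ(z)`. -/
structure IsBlochHarm (κ : ℂ) (s : ℝ) (ψ ω : ℂ → ℂ) : Prop where
  ω_diff : DifferentiableOn ℂ ω (US s)
  deriv : ∀ z ∈ US s, HasFDerivAt ψ (dpair (ω z) (-(conj (ω (-z))))) z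
  bloch : ∀ z ∈ US s, ∀ p : ℤ × ℤ, ψ (z + lp p) = chi κ p * ψ z
  symm : ∀ z ∈ US s, ψ (-z) = conj (ψ z)

/-- THE INTERFACE (Theorem M): solution data with closeness parameter `η`. -/
structure IsSol (N : ℕ) (η t c σ : ℝ) (ψ ω v ν : ℂ → ℂ) (ρ : ℂ → ℝ) : Prop where
  tpos : 0 < t
  tlt : t < 1 / 8
  tnear : |t / ‖kap N‖ - 1 / (2 * Real.sqrt 2 * π)| ≤ η
  cnear : |c - 1 / 2| ≤ η
  psi : IsBlochHarm (kap N) (t / 2) ψ ω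
  /-- `|u| = 1` on the hole boundary -/
  sphere : ∀ z : ℂ, ‖z‖ = t →
    c ^ 2 * (‖ψ z‖ ^ 2 + ‖ψ (I * z)‖ ^ 2 + ‖ψ (conj z)‖ ^ 2 + ‖ψ (I * conj z)‖ ^ 2) = 1
  ρpos : ∀ z : ℂ, ‖z‖ = t → 0 < ρ z
  ρrot : ∀ z : ℂ, ‖z‖ = t → ρ (I * z) = ρ z
  ρconj : ∀ z : ℂ, ‖z‖ = t → ρ (conj z) = ρ z
  /-- `r ∂_r ψ = - ρ ψ` on the hole boundary -/
  free : ∀ z : ℂ, ‖z‖ = t → z * ω z - conj (z * ω (-z)) = -((ρ z : ℝ) : ℂ) * ψ z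
  /-- the Hopf differential vanishes (conformality of `u`) -/
  hopf : ∀ z ∈ US (t / 2), -(ω z * ω (-z)) + ω (I * z) * ω (-(I * z))
    - conj (ω (conj z) * ω (-(conj z))) + conj (ω (I * conj z) * ω (-(I * conj z))) = 0
  /-- closeness to the model for `t ≤ |x| ≤ 3/4` -/
  close : ∀ x : ℂ, t ≤ ‖x‖ → ‖x‖ ≤ 3 / 4 → ‖ψ x - modelPsi (kap N) t x‖ ≤ η * ‖kap N‖
  lip : ∀ x y : ℂ, t ≤ ‖x‖ → ‖x‖ ≤ 3 / 4 → t ≤ ‖y‖ → ‖y‖ ≤ 3 / 4 →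
    ‖(ψ x - modelPsi (kap N) t x) - (ψ y - modelPsi (kap N) t y)‖ ≤ η * ‖kap N‖ * ‖x - y‖
  omclose : ∀ x : ℂ, t ≤ ‖x‖ → ‖x‖ ≤ 3 / 4 → ‖ω x - modelOm (kap N) t x‖ ≤ η * ‖kap N‖
  /-- the second eigenfunction -/
  vharm : IsBlochHarm (kap' N) (t / 2) v ν
  σpos : 0 < σ
  σlt : σ < 1 / 4
  vfree : ∀ z : ℂ, ‖z‖ = t → z * ν z - conj (z * ν (-z)) = -((σ * ρ z : ℝ) : ℂ) * v z
  vnear : ∀ z : ℂ, ‖z‖ = t → ‖v z - 1‖ ≤ 1 / 2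

end FB
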