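import Mathlib
import Pool.Agent.FB.Defs

/-!
# Interfaces between the analytic modules LAT, FIX, EIG, PSI, HOPF (MP_15d50e_gt)
-/

open Complex Set
open scoped ComplexConjugate Real

namespace FB

/-! ## Sequences on ℤ (Fourier coefficients of functions on the circle) -/

/-- Extension of `b : ℕ → ℂ` (only `n ≥ 1` matters) to `ℤ` by `x_{-n} = (-1)^n conj x_n`, `x_0 = 0`. -/
noncomputable def ext (b : ℕ → ℂ) (n : ℤ) : ℂ :=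
  if 0 < n then b n.toNat else if n < 0 then (-1) ^ n.natAbs * conj (b (-n).toNat) else 0

/-- Convolution = Fourier coefficients of the product. -/
noncomputable def conv (x y : ℤ → ℂ) (n : ℤ) : ℂ := ∑' k : ℤ, x k * y (n - k)

/-- Projection to real `D4`-invariant functions. -/
noncomputable def PP (x : ℤ → ℂ) (n : ℤ) : ℂ := if (4 : ℤ) ∣ n then ((x n).re : ℂ) else 0

/-- Coefficients of the complex conjugate, for `x` with `x_{-n} = (-1)^n conj x_n`. -/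
noncomputable def cj (x : ℤ → ℂ) (n : ℤ) : ℂ := (-1) ^ n.natAbs * x n

/-- Coefficients of `f = 1 + φ`, `φ_n = a_n + b_n`. -/
noncomputable def fC (a b : ℕ → ℂ) (n : ℤ) : ℂ := if n = 0 then 1 else ext a n + ext b n

/-- Coefficients of `f' = r ∂_r ψ` on the circle: `f'_0 = β`, `f'_n = |n| (a_n - b_n)`. -/
noncomputable def gC (β : ℝ) (a b : ℕ → ℂ) (n : ℤ) : ℂ :=
  if n = 0 then (β : ℂ) else (n.natAbs : ℂ) * (ext a n - ext b n)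

/-- The regular coefficients `a_n`, `n ≥ 1`, as a function of `β` and the singular ones `b`:
`a_n = t^n ( -β E_n/(2n) + Σ_{m ≥ 1} binom(m+n-1,n) t^m E_{m+n} conj b_m )`. -/
noncomputable def regC (E : ℕ → ℂ) (t β : ℝ) (b : ℕ → ℂ) (n : ℕ) : ℂ :=
  if n = 0 then 0 else (t : ℂ) ^ n * (-(β : ℂ) * E n / (2 * n) +
    ∑' m : ℕ, (Nat.choose (m + n) n : ℂ) * (t : ℂ) ^ (m + 1) * E (m + 1 + n) * conj (b (m + 1)))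

/-- The constant coefficient `α₀ = β (γ + log t) + 2 Σ_{m ≥ 1} t^m Re(E_m conj b_m)`. -/
noncomputable def constC (E : ℕ → ℂ) (γ t β : ℝ) (b : ℕ → ℂ) : ℝ :=
  β * (γ + Real.log t) + 2 * ∑' m : ℕ, t ^ (m + 1) * (E (m + 1) * conj (b (m + 1))).re

/-- The leading coefficients: `a0_1 = i conj κ t / 2`, others `0`. -/
noncomputable def leadC (κ : ℂ) (t : ℝ) (n : ℕ) : ℂ := if n = 1 then I * conj κ * (t : ℂ) / 2 else 0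

/-- Weighted norm statement: `Σ 2^n |x_n| ≤ B` (summable). -/
def WBound (x : ℕ → ℂ) (B : ℝ) : Prop :=
  Summable (fun n : ℕ => 2 ^ n * ‖x n‖) ∧ ∑' n : ℕ, 2 ^ n * ‖x n‖ ≤ B

/-! ## LAT: Bloch kernels -/

/-- Bounds on the lattice constants. -/
structure LatBounds (κ : ℂ) (C : ℝ) (E : ℕ → ℂ) (γ : ℝ) : Prop where
  e1 : ‖E 1 * κ - 2 * π * I‖ ≤ C * ‖κ‖
  ej : ∀ j : ℕ, 2 ≤ j → ‖E j‖ ≤ C * (5 / 4) ^ j
  gam : |γ * ‖κ‖ ^ 2 + 2 * π| ≤ C * ‖κ‖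

/-- Bloch kernels: `M n = Σ_p χ(p) (z-p)^{-n}` (suitably defined for `n = 1, 2`) and the logarithmic
function `G`. -/
structure IsLat (κ : ℂ) (E : ℕ → ℂ) (γ : ℝ) (M : ℕ → ℂ → ℂ) (G : ℂ → ℂ) : Prop where
  bloch : ∀ n : ℕ, 1 ≤ n → ∀ z ∈ US 0, ∀ p : ℤ × ℤ, M n (z + lp p) = chi κ p * M n z
  deriv : ∀ n : ℕ, 1 ≤ n → ∀ z ∈ US 0, HasDerivAt (M n) (-(n : ℂ) * M (n + 1) z) z
  expand : ∀ n : ℕ, 1 ≤ n → ∀ z : ℂ, 0 < ‖z‖ → ‖z‖ < 1 →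
    HasSum (fun m : ℕ => (-1 : ℂ) ^ n * (Nat.choose (n + m - 1) m : ℂ) * E (n + m) * z ^ m)
      (M n z - (z ^ n)⁻¹)
  G_harm : IsBlochHarm κ 0 G (fun z => M 1 z / 2)
  G_expand : ∀ z : ℂ, 0 < ‖z‖ → ‖z‖ < 1 →
    HasSum (fun m : ℕ => -(1 / (2 * ((m : ℂ) + 1))) *
      (E (m + 1) * z ^ (m + 1) + (-1) ^ (m + 1) * conj (E (m + 1)) * conj z ^ (m + 1)))
      (G z - Real.log ‖z‖ - γ)
  /-- growth bound used for the convergence of `Σ t^m b_{-m} M m` away from the lattice -/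
  growth : ∃ C : ℝ, ∀ s : ℝ, 0 < s → s ≤ 1 / 4 → ∀ n : ℕ, 1 ≤ n → ∀ z ∈ US s, ‖z.re‖ ≤ 1 / 2 →
    ‖z.im‖ ≤ 1 / 2 → ‖M n z‖ ≤ C * (s ^ n)⁻¹ * n

/-- THEOREM LAT. -/
def TheoremLAT : Prop :=
  ∃ C κ₀ : ℝ, 0 < C ∧ 0 < κ₀ ∧ ∀ κ : ℂ, 0 < ‖κ‖ → ‖κ‖ ≤ κ₀ → ‖κ‖ ≤ 3 * κ.re →
    ∃ (E : ℕ → ℂ) (γ : ℝ) (M : ℕ → ℂ → ℂ) (G : ℂ → ℂ), LatBounds κ C E γ ∧ IsLat κ E γ M G

/-! ## FIX: the main fixed point -/

/-- Output of the fixed point argument for the main problem. -/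
structure IsFix (κ : ℂ) (C : ℝ) (E : ℕ → ℂ) (γ t β : ℝ) (a b : ℕ → ℂ) : Prop where
  tnear : |t / ‖κ‖ - 1 / (2 * Real.sqrt 2 * π)| ≤ C * ‖κ‖
  βnear : |β + ‖κ‖ ^ 2 / (2 * π)| ≤ C * ‖κ‖ ^ 3
  b0 : b 0 = 0
  anear : WBound (fun n => a n - leadC κ t n) (C * ‖κ‖ ^ 3)
  bnear : WBound (fun n => b n - leadC κ t n) (C * ‖κ‖ ^ 3)
  adef : a = regC E t β b
  one : constC E γ t β b = 1
  eq1 : ∀ n : ℤ, n ≠ 0 → PP (conv (fC a b) (cj (fC a b))) n = 0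
  eq2 : ∀ n : ℤ, conv (PP (fC a b)) (gC β a b) n = conv (PP (gC β a b)) (fC a b) n
  theta : β ^ 2 = 8 * ∑' n : ℕ, (n : ℝ) ^ 2 * (a n * conj (b n)).re

/-- THEOREM FIX: for every `C` there are `C'`, `κ₀` such that for lattice constants bounded by `C`
the fixed point exists. -/
def TheoremFIX : Prop :=
  ∀ C : ℝ, 0 < C → ∃ C' κ₀ : ℝ, 0 < C' ∧ 0 < κ₀ ∧ ∀ κ : ℂ, 0 < ‖κ‖ → ‖κ‖ ≤ κ₀ →
    ∀ (E : ℕ → ℂ) (γ : ℝ), LatBounds κ C E γ →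
    ∃ (t β : ℝ) (a b : ℕ → ℂ), IsFix κ C' E γ t β a b

/-! ## EIG: the second (linear) problem -/

/-- Output of the second fixed point: `κ'` the second momentum, `E', γ'` its lattice constants,
`t, β, a, b` the main solution. -/
structure IsEig (κ κ' : ℂ) (C : ℝ) (E' : ℕ → ℂ) (γ' t β : ℝ) (a b : ℕ → ℂ)
    (σ β' : ℝ) (a' b' : ℕ → ℂ) : Prop where
  σnear : |σ - ‖κ'‖ ^ 2 / ‖κ‖ ^ 2| ≤ C * ‖κ‖
  βnear : |β' + ‖κ'‖ ^ 2 / (2 * π)| ≤ C * ‖κ‖ ^ 3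
  b0 : b' 0 = 0
  asmall : WBound a' (C * ‖κ‖ ^ 2)
  bsmall : WBound b' (C * ‖κ‖ ^ 2)
  adef : a' = regC E' t β' b'
  one : constC E' γ' t β' b' = 1
  eq2 : ∀ n : ℤ, conv (PP (fC a b)) (gC β' a' b') n = σ * conv (PP (gC β a b)) (fC a' b') n

/-- THEOREM EIG. -/
def TheoremEIG : Prop :=
  ∀ C : ℝ, 0 < C → ∃ C' κ₀ : ℝ, 0 < C' ∧ 0 < κ₀ ∧ ∀ κ κ' : ℂ, 0 < ‖κ‖ → ‖κ‖ ≤ κ₀ →
    ‖κ‖ ≤ 3 * ‖κ'‖ → ‖κ'‖ ≤ ‖κ‖ →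
    ∀ (E : ℕ → ℂ) (γ t β : ℝ) (a b : ℕ → ℂ), LatBounds κ C E γ → IsFix κ C E γ t β a b →
    ∀ (E' : ℕ → ℂ) (γ' : ℝ), LatBounds κ' C E' γ' →
    ∃ (σ β' : ℝ) (a' b' : ℕ → ℂ), IsEig κ κ' C' E' γ' t β a b σ β' a' b'

/-! ## PSI: the Bloch harmonic function -/

/-- `ψ = β G + Σ_{m≥1} t^m ( (-1)^m conj(b_m) M_m(z) + b_m (-1)^m conj(M_m(-z)) )`. -/
noncomputable def psiF (M : ℕ → ℂ → ℂ) (G : ℂ → ℂ) (t β : ℝ) (b : ℕ → ℂ) (z : ℂ) : ℂ :=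
  β * G z + ∑' m : ℕ, (t : ℂ) ^ (m + 1) * (-1) ^ (m + 1) *
    (conj (b (m + 1)) * M (m + 1) z + b (m + 1) * conj (M (m + 1) (-z)))

/-- `ω = ∂_z ψ = β M_1/2 - Σ_{m≥1} m t^m (-1)^m conj(b_m) M_{m+1}`. -/
noncomputable def omF (M : ℕ → ℂ → ℂ) (t β : ℝ) (b : ℕ → ℂ) (z : ℂ) : ℂ :=
  β * M 1 z / 2 - ∑' m : ℕ, ((m : ℂ) + 1) * (t : ℂ) ^ (m + 1) * (-1) ^ (m + 1) *
    conj (b (m + 1)) * M (m + 2) z

/-- Expansion of `ψ` and `ω` around the hole, for `t/2 < |z| < 7/8`: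
`ψ = α₀ + β log(r/t) + Σ_{n ≠ 0} ...`, `z ω = β/2 + Σ_{n≥1} n a_n (z/t)^n - Σ_{n≥1} n b_{-n} (t/z)^n`. -/
structure IsLocal (t β : ℝ) (a b : ℕ → ℂ) (ψ ω : ℂ → ℂ) : Prop where
  psi : ∀ z : ℂ, t / 2 < ‖z‖ → ‖z‖ < 7 / 8 →
    HasSum (fun n : ℕ => a n * (z / t) ^ n + (-1) ^ n * conj (a n) * (conj z / t) ^ n +
        b n * (t / conj z) ^ n + (-1) ^ n * conj (b n) * (t / z) ^ n)
      (ψ z - 1 - ((β * Real.log (‖z‖ / t) : ℝ) : ℂ))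
  om : ∀ z : ℂ, t / 2 < ‖z‖ → ‖z‖ < 7 / 8 →
    HasSum (fun n : ℕ => (n : ℂ) * (a n * (z / t) ^ n - (-1) ^ n * conj (b n) * (t / z) ^ n))
      (z * ω z - β / 2)

/-- THEOREM PSI1: construction of the Bloch harmonic function from the coefficients (used for both
momenta). -/
def TheoremPSI1 : Prop :=
  ∀ (κ : ℂ) (C : ℝ) (E : ℕ → ℂ) (γ : ℝ) (M : ℕ → ℂ → ℂ) (G : ℂ → ℂ) (t β : ℝ) (b : ℕ → ℂ),
    LatBounds κ C E γ → IsLat κ E γ M G → 0 < t → t < 1 / 8 → b 0 = 0 →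
    Summable (fun n : ℕ => 2 ^ n * ‖b n‖) → constC E γ t β b = 1 →
    IsBlochHarm κ (t / 2) (psiF M G t β b) (omF M t β b) ∧
    IsLocal t β (regC E t β b) b (psiF M G t β b) (omF M t β b)

end FB
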