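import Mathlib

/-!
# Statement level definitions (MP_15d50e_gt)

Properly embedded free boundary minimal surfaces in the closed unit ball of `ℝⁿ` and their Steklov
eigenfunctions, for subsets `S` of Euclidean space.
-/

open Metric Set Complex InnerProductSpace Laplacian
open scoped ContDiff

namespace FB

/-- Euclidean space `ℝⁿ`. -/
abbrev Eu (n : ℕ) := EuclideanSpace ℝ (Fin n)

/-- `f` is a conformal immersion at `w`: the derivatives `∂_x f` and `∂_y f` at `w` have the
same positive length and are orthogonal. -/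
def ConformalAt {n : ℕ} (f : ℂ → Eu n) (w : ℂ) : Prop :=
  0 < ‖fderiv ℝ f w 1‖ ∧ ‖fderiv ℝ f w 1‖ = ‖fderiv ℝ f w I‖ ∧
    inner ℝ (fderiv ℝ f w 1) (fderiv ℝ f w I) = 0

/-- The closed half disc `{|w| ≤ r, Im w ≥ 0}`. -/
def halfDisc (r : ℝ) : Set ℂ := {w | ‖w‖ ≤ r ∧ 0 ≤ w.im}

/-- `f`, near the closed disc of radius `r`, is a chart of the surface `S` around the point `x`:
a smooth injective conformal immersion with `f 0 = x`, whose coordinate functions are harmonic (so
the surface is minimal), and which maps the open disc onto a neighbourhood of `x` in `S`. -/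
structure InteriorChart {n : ℕ} (S : Set (Eu n)) (x : Eu n) (r : ℝ) (f : ℂ → Eu n) : Prop where
  pos : 0 < r
  center : f 0 = x
  smooth : ∀ w : ℂ, ‖w‖ ≤ r → ContDiffAt ℝ ∞ f w
  conformal : ∀ w : ℂ, ‖w‖ ≤ r → ConformalAt f w
  harmonic : ∀ w : ℂ, ‖w‖ ≤ r → Δ f w = 0
  injOn : ∀ w : ℂ, ‖w‖ ≤ r → ∀ w' : ℂ, ‖w'‖ ≤ r → f w = f w' → w = w'
  image : ∃ V : Set (Eu n), IsOpen V ∧ S ∩ V = f '' {w | ‖w‖ < r}

/-- `f`, near the closed half disc of radius `r`, is a boundary chart of the surface `S` around the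
point `x` of the unit sphere: a smooth injective conformal immersion of the half disc with
`f 0 = x`, with harmonic coordinate functions, which maps the half disc `{|w| < r, Im w ≥ 0}` onto a
neighbourhood of `x` in `S`, maps exactly the points with `Im w = 0` to the unit sphere, and there
the outward conormal `-∂_y f` is a positive multiple of the position vector `f`, so that `S` meets the
unit sphere orthogonally (free boundary). -/
structure BoundaryChart {n : ℕ} (S : Set (Eu n)) (x : Eu n) (r : ℝ) (f : ℂ → Eu n) : Prop where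
  pos : 0 < r
  center : f 0 = x
  smooth : ∀ w ∈ halfDisc r, ContDiffAt ℝ ∞ f w
  conformal : ∀ w ∈ halfDisc r, ConformalAt f w
  harmonic : ∀ w ∈ halfDisc r, Δ f w = 0
  injOn : ∀ w ∈ halfDisc r, ∀ w' ∈ halfDisc r, f w = f w' → w = w'
  image : ∃ V : Set (Eu n), IsOpen V ∧ S ∩ V = f '' {w | ‖w‖ < r ∧ 0 ≤ w.im}
  sphere : ∀ w ∈ halfDisc r, (‖f w‖ = 1 ↔ w.im = 0)
  free : ∀ w ∈ halfDisc r, w.im = 0 → ∃ l : ℝ, 0 < l ∧ -(fderiv ℝ f w I) = l • f w

/-- `S` is a properly embedded free boundary minimal surface in the closed unit ball of `ℝⁿ`: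
compact, connected, contained in the ball, with nonempty boundary; every point of `S` inside the open
ball has an interior chart and every point of `S` on the unit sphere has a boundary chart. So `S` is a
smooth compact embedded minimal surface whose boundary is `S ∩ ∂𝔹ⁿ` and which meets the sphere
orthogonally along it. -/
structure IsFBMS {n : ℕ} (S : Set (Eu n)) : Prop where
  compact : IsCompact S
  connected : IsConnected S
  ball : ∀ x ∈ S, ‖x‖ ≤ 1
  boundary : ∃ x ∈ S, ‖x‖ = 1
  interiorChart : ∀ x ∈ S, ‖x‖ < 1 → ∃ r f, InteriorChart S x r f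
  boundaryChart : ∀ x ∈ S, ‖x‖ = 1 → ∃ r f, BoundaryChart S x r f

/-- The function `V` (only its values on `S` matter) is a solution of the Steklov problem on `S` with
the number `σ`: in a conformal chart around every point it is smooth (up to the boundary) and harmonic,
and at the boundary its derivative in the direction of the outward unit conormal
`-∂_y / |∂_y f|` is `σ V`. -/
def IsSteklov {n : ℕ} (S : Set (Eu n)) (σ : ℝ) (V : Eu n → ℝ) : Prop :=
  (∀ x ∈ S, ‖x‖ < 1 → ∃ r f, InteriorChart S x r f ∧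
    ∀ w : ℂ, ‖w‖ < r → ContDiffAt ℝ ∞ (fun w => V (f w)) w ∧ Δ (fun w => V (f w)) w = 0) ∧
  (∀ x ∈ S, ‖x‖ = 1 → ∃ r f, BoundaryChart S x r f ∧ ∃ g : ℂ → ℝ,
    (∀ w ∈ halfDisc r, g w = V (f w) ∧ ContDiffAt ℝ ∞ g w ∧ Δ g w = 0) ∧
    (∀ w ∈ halfDisc r, w.im = 0 → -(fderiv ℝ g w I) = σ * ‖fderiv ℝ f w I‖ * g w))

/-- `σ` is a Steklov eigenvalue of `S`. -/
def IsSteklovEigenvalue {n : ℕ} (S : Set (Eu n)) (σ : ℝ) : Prop :=
  ∃ V : Eu n → ℝ, IsSteklov S σ V ∧ ∃ x ∈ S, V x ≠ 0

/-- `σ` is the first (smallest positive) Steklov eigenvalue of `S`. -/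
def IsFirstSteklovEigenvalue {n : ℕ} (S : Set (Eu n)) (σ : ℝ) : Prop :=
  0 < σ ∧ IsSteklovEigenvalue S σ ∧ ∀ τ, 0 < τ → IsSteklovEigenvalue S τ → σ ≤ τ

/-- The first Steklov eigenspace of `S`, as a set of functions on `S`. -/
def firstSteklovEigenspace {n : ℕ} (S : Set (Eu n)) : Set (S → ℝ) :=
  {v | ∃ σ, IsFirstSteklovEigenvalue S σ ∧ ∃ V : Eu n → ℝ, IsSteklov S σ V ∧ ∀ x : S, v x = V x}

/-- The span of the coordinate functions on `S`: restrictions of linear functions. -/
def coordinateSpan {n : ℕ} (S : Set (Eu n)) : Set (S → ℝ) :=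
  {v | ∃ a : Eu n, ∀ x : S, v x = inner ℝ a (x : Eu n)}

end FB
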