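import Mathlib
import Pool.Agent.FB.Stmt
import Pool.Agent.FB.Defs
import Pool.Agent.FB.Iface

/-!
# Interfaces II: boundary conditions, Hopf differential, geometry, assembly (MP_15d50e_gt)
-/

open Complex Set
open scoped ComplexConjugate Real

namespace FB

/-- Boundary conditions on the hole boundary `|z| = t`, with weight `ρ` and factor `c`. -/
structure IsBdry (t c : ℝ) (ψ ω : ℂ → ℂ) (ρ : ℂ → ℝ) : Prop where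
  sphere : ∀ z : ℂ, ‖z‖ = t →
    c ^ 2 * (‖ψ z‖ ^ 2 + ‖ψ (I * z)‖ ^ 2 + ‖ψ (conj z)‖ ^ 2 + ‖ψ (I * conj z)‖ ^ 2) = 1
  ρpos : ∀ z : ℂ, ‖z‖ = t → 0 < ρ z
  ρrot : ∀ z : ℂ, ‖z‖ = t → ρ (I * z) = ρ z
  ρconj : ∀ z : ℂ, ‖z‖ = t → ρ (conj z) = ρ z
  free : ∀ z : ℂ, ‖z‖ = t → z * ω z - conj (z * ω (-z)) = -((ρ z : ℝ) : ℂ) * ψ z

/-- Closeness to the catenoid model on `t ≤ |x| ≤ 3/4`. -/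
structure IsClose (κ : ℂ) (η t : ℝ) (ψ ω : ℂ → ℂ) : Prop where
  close : ∀ x : ℂ, t ≤ ‖x‖ → ‖x‖ ≤ 3 / 4 → ‖ψ x - modelPsi κ t x‖ ≤ η * ‖κ‖
  lip : ∀ x y : ℂ, t ≤ ‖x‖ → ‖x‖ ≤ 3 / 4 → t ≤ ‖y‖ → ‖y‖ ≤ 3 / 4 →
    ‖(ψ x - modelPsi κ t x) - (ψ y - modelPsi κ t y)‖ ≤ η * ‖κ‖ * ‖x - y‖
  omclose : ∀ x : ℂ, t ≤ ‖x‖ → ‖x‖ ≤ 3 / 4 → ‖ω x - modelOm κ t x‖ ≤ η * ‖κ‖

/-- THEOREM BC (module PSI2): the fixed point equations give the boundary conditions, for the main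
function and for the second one, with the same `ρ`. -/
def TheoremBC : Prop :=
  ∀ C η : ℝ, 0 < C → 0 < η → ∃ κ₀ : ℝ, 0 < κ₀ ∧ ∀ (κ : ℂ) (E : ℕ → ℂ) (γ t β : ℝ) (a b : ℕ → ℂ)
    (ψ ω : ℂ → ℂ), 0 < ‖κ‖ → ‖κ‖ ≤ κ₀ → IsFix κ C E γ t β a b → IsLocal t β a b ψ ω →
    ∃ (c : ℝ) (ρ : ℂ → ℝ), |c - 1 / 2| ≤ η ∧ 0 < c ∧ IsBdry t c ψ ω ρ ∧
      ∀ (κ' : ℂ) (E' : ℕ → ℂ) (γ' σ β' : ℝ) (a' b' : ℕ → ℂ) (v ν : ℂ → ℂ),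
        IsEig κ κ' C E' γ' t β a b σ β' a' b' → IsLocal t β' a' b' v ν →
        (∀ z : ℂ, ‖z‖ = t → z * ν z - conj (z * ν (-z)) = -((σ * ρ z : ℝ) : ℂ) * v z) ∧
        (∀ z : ℂ, ‖z‖ = t → ‖v z - 1‖ ≤ 1 / 2)

/-- THEOREM CLOSE (module PSI3). -/
def TheoremCLOSE : Prop :=
  ∀ C η : ℝ, 0 < C → 0 < η → ∃ κ₀ : ℝ, 0 < κ₀ ∧ ∀ (κ : ℂ) (E : ℕ → ℂ) (γ t β : ℝ) (a b : ℕ → ℂ)
    (ψ ω : ℂ → ℂ), 0 < ‖κ‖ → ‖κ‖ ≤ κ₀ → LatBounds κ C E γ → IsFix κ C E γ t β a b →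
    IsLocal t β a b ψ ω → IsClose κ η t ψ ω

/-- THEOREM HOPF (module HOPF). -/
def TheoremHOPF : Prop :=
  ∀ (κ : ℂ) (t β c : ℝ) (a b : ℕ → ℂ) (ψ ω : ℂ → ℂ) (ρ : ℂ → ℝ), 0 < t → t < 1 / 8 →
    a 0 = 0 → b 0 = 0 → Summable (fun n : ℕ => 2 ^ n * ‖a n‖) → Summable (fun n : ℕ => 2 ^ n * ‖b n‖) →
    IsBlochHarm κ (t / 2) ψ ω → IsLocal t β a b ψ ω → 0 < c → IsBdry t c ψ ω ρ →
    β ^ 2 = 8 * ∑' n : ℕ, (n : ℝ) ^ 2 * (a n * conj (b n)).re →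
    ∀ z ∈ US (t / 2), -(ω z * ω (-z)) + ω (I * z) * ω (-(I * z))
      - conj (ω (conj z) * ω (-(conj z))) + conj (ω (I * conj z) * ω (-(I * conj z))) = 0

/-- THEOREM M (assembly of LAT, FIX, EIG, PSI, HOPF). -/
def TheoremM : Prop :=
  ∀ η : ℝ, 0 < η → ∃ N₀ : ℕ, ∀ N : ℕ, N₀ ≤ N → ∃ (t c σ : ℝ) (ψ ω v ν : ℂ → ℂ) (ρ : ℂ → ℝ),
    IsSol N η t c σ ψ ω v ν ρ

/-- The map to `ℝ⁸`. -/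
noncomputable def uMap (c : ℝ) (ψ : ℂ → ℂ) (x : ℂ) : Eu 8 :=
  WithLp.toLp 2 (![c * (ψ x).re, c * (ψ x).im, c * (ψ (I * x)).re, c * (ψ (I * x)).im,
    c * (ψ (conj x)).re, c * (ψ (conj x)).im, c * (ψ (I * conj x)).re, c * (ψ (I * conj x)).im])

/-- The surface. -/
def surf (c t : ℝ) (ψ : ℂ → ℂ) : Set (Eu 8) := uMap c ψ '' ES t

/-- THEOREM GEO: a solution with small `η` and large `N` gives a properly embedded free boundary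
minimal surface in the ball of `ℝ⁸` with a Steklov eigenvalue `σ ∈ (0, 1/4)`. -/
def TheoremGEO : Prop :=
  ∃ (η : ℝ) (N₁ : ℕ), 0 < η ∧ ∀ N : ℕ, N₁ ≤ N → ∀ (t c σ : ℝ) (ψ ω v ν : ℂ → ℂ) (ρ : ℂ → ℝ),
    IsSol N η t c σ ψ ω v ν ρ →
    IsFBMS (surf c t ψ) ∧ IsSteklovEigenvalue (surf c t ψ) σ

end FB
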