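import Mathlib
import Pool.Agent.FB.Iface2

/-!
# Assembly of Theorem M (MP_15d50e_gt)
-/

open Complex Set
open scoped ComplexConjugate Real

namespace FB

theorem WBound.mono {x : ℕ → ℂ} {B B' : ℝ} (h : WBound x B) (hB : B ≤ B') : WBound x B' :=
  ⟨h.1, h.2.trans hB⟩

theorem LatBounds.mono {κ : ℂ} {C C' : ℝ} {E : ℕ → ℂ} {γ : ℝ} (h : LatBounds κ C E γ)
    (hC : C ≤ C') : LatBounds κ C' E γ where
  e1 := h.e1.trans (by gcongr)
  ej := fun j hj => (h.ej j hj).trans (by gcongr)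
  gam := h.gam.trans (by gcongr)

theorem IsFix.mono {κ : ℂ} {C C' : ℝ} {E : ℕ → ℂ} {γ t β : ℝ} {a b : ℕ → ℂ}
    (h : IsFix κ C E γ t β a b) (hC : C ≤ C') : IsFix κ C' E γ t β a b where
  tnear := h.tnear.trans (by gcongr)
  βnear := h.βnear.trans (by gcongr)
  b0 := h.b0
  anear := h.anear.mono (by gcongr)
  bnear := h.bnear.mono (by gcongr)
  adef := h.adef
  one := h.one
  eq1 := h.eq1
  eq2 := h.eq2
  theta := h.theta

theorem IsEig.mono {κ κ' : ℂ} {C C' : ℝ} {E' : ℕ → ℂ} {γ' t β : ℝ} {a b : ℕ → ℂ}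
    {σ β' : ℝ} {a' b' : ℕ → ℂ} (h : IsEig κ κ' C E' γ' t β a b σ β' a' b') (hC : C ≤ C') :
    IsEig κ κ' C' E' γ' t β a b σ β' a' b' where
  σnear := h.σnear.trans (by gcongr)
  βnear := h.βnear.trans (by gcongr)
  b0 := h.b0
  asmall := h.asmall.mono (by gcongr)
  bsmall := h.bsmall.mono (by gcongr)
  adef := h.adef
  one := h.one
  eq2 := h.eq2

theorem asm_norm_kap (N : ℕ) (hN : 0 < N) : ‖kap N‖ = 2 * π / N * Real.sqrt 5 := by
  have h : ‖(1 + 2 * I : ℂ)‖ = Real.sqrt 5 := by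
    rw [Complex.norm_def, Complex.normSq_apply]
    norm_num
  rw [kap, norm_mul, h, Complex.norm_real, Real.norm_of_nonneg (by positivity)]

theorem asm_norm_kap' (N : ℕ) (hN : 0 < N) : ‖kap' N‖ = 2 * π / N := by
  rw [kap', Complex.norm_real, Real.norm_of_nonneg (by positivity)]

theorem asm_kap_re (N : ℕ) : (kap N).re = 2 * π / N := by
  simp [kap]

theorem asm_kap'_re (N : ℕ) : (kap' N).re = 2 * π / N := by
  simp [kap']

theorem asm_sqrt5_bounds : 2 < Real.sqrt 5 ∧ Real.sqrt 5 < 3 := by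
  constructor
  · rw [show (2 : ℝ) = Real.sqrt 4 by rw [show (4 : ℝ) = 2 ^ 2 by norm_num]; simp]
    exact Real.sqrt_lt_sqrt (by norm_num) (by norm_num)
  · rw [show (3 : ℝ) = Real.sqrt 9 by rw [show (9 : ℝ) = 3 ^ 2 by norm_num]; simp]
    exact Real.sqrt_lt_sqrt (by norm_num) (by norm_num)

/-- For every `δ > 0`, `‖kap N‖ ≤ δ` for large `N`. -/
theorem exists_kap_small (δ : ℝ) (hδ : 0 < δ) : ∃ N₀ : ℕ, 0 < N₀ ∧ ∀ N : ℕ, N₀ ≤ N → ‖kap N‖ ≤ δ := by
  obtain ⟨n, hn⟩ := exists_nat_gt (2 * π * 3 / δ)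
  refine ⟨n + 1, Nat.succ_pos n, fun N hN => ?_⟩
  have hNpos : 0 < N := lt_of_lt_of_le (Nat.succ_pos n) hN
  have hNr : (0 : ℝ) < N := by exact_mod_cast hNpos
  rw [asm_norm_kap N hNpos]
  have h1 : 2 * π * 3 / δ < N := lt_of_lt_of_le hn (by exact_mod_cast (Nat.le_of_succ_le hN))
  have h2 : 2 * π * 3 < δ * N := by
    rw [div_lt_iff₀ hδ] at h1
    linarith
  have h3 := asm_sqrt5_bounds.2
  rw [div_mul_eq_mul_div, div_le_iff₀ hNr]
  have h4 : 2 * π * Real.sqrt 5 ≤ 2 * π * 3 := by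
    have := Real.pi_pos
    nlinarith
  linarith

theorem summable_of_near {x : ℕ → ℂ} {κ : ℂ} {t B : ℝ}
    (h : WBound (fun n => x n - leadC κ t n) B) : Summable (fun n : ℕ => 2 ^ n * ‖x n‖) := by
  have h1 : Summable (fun n : ℕ => 2 ^ n * ‖leadC κ t n‖) := by
    refine summable_of_ne_finset_zero (s := {1}) fun n hn => ?_
    have : n ≠ 1 := by simpa using hn
    simp [leadC, this]
  refine Summable.of_nonneg_of_le (fun n => by positivity) (fun n => ?_) (h.1.add h1)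
  rw [← mul_add]
  gcongr
  calc ‖x n‖ = ‖(x n - leadC κ t n) + leadC κ t n‖ := by ring_nf
    _ ≤ _ := norm_add_le _ _

/-- ASSEMBLY OF THEOREM M. -/
theorem theoremM_of (hLAT : TheoremLAT) (hFIX : TheoremFIX) (hEIG : TheoremEIG)
    (hPSI : TheoremPSI1) (hBC : TheoremBC) (hCL : TheoremCLOSE) (hHOPF : TheoremHOPF) :
    TheoremM := by
  intro η hη
  obtain ⟨C1, κ1, hC1, hκ1, hLAT⟩ := hLAT
  obtain ⟨C2, κ2, hC2, hκ2, hFIX⟩ := hFIX C1 hC1
  set C3 := max C1 C2 with hC3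
  have hC3p : 0 < C3 := lt_max_of_lt_left hC1
  obtain ⟨C4, κ4, hC4, hκ4, hEIG⟩ := hEIG C3 hC3p
  set C5 := max C3 C4 with hC5
  have hC5p : 0 < C5 := lt_max_of_lt_left hC3p
  obtain ⟨κ5, hκ5, hBC⟩ := hBC C5 η hC5p hη
  obtain ⟨κ6, hκ6, hCL⟩ := hCL C5 η hC5p hη
  -- smallness
  set δ := min (min (min κ1 κ2) (min κ4 κ5)) (min κ6 (min (η / C5) (min (1 / (100 * C5)) (1 / 2))))
    with hδ
  have hδp : 0 < δ := by
    rw [hδ]
    have : 0 < η / C5 := by positivity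
    have : 0 < 1 / (100 * C5) := by positivity
    simp only [lt_min_iff]
    refine ⟨⟨⟨hκ1, hκ2⟩, hκ4, hκ5⟩, hκ6, by positivity, by positivity, by norm_num⟩
  obtain ⟨N₀, hN₀, hsm⟩ := exists_kap_small δ hδp
  refine ⟨N₀, fun N hN => ?_⟩
  have hNpos : 0 < N := lt_of_lt_of_le hN₀ hN
  have hNr : (0 : ℝ) < N := by exact_mod_cast hNpos
  have hk := hsm N hN
  have hpi := Real.pi_pos
  obtain ⟨h52, h53⟩ := asm_sqrt5_bounds
  have hepos : 0 < 2 * π / N := by positivity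
  have hkpos : 0 < ‖kap N‖ := by rw [asm_norm_kap N hNpos]; positivity
  have hk'pos : 0 < ‖kap' N‖ := by rw [asm_norm_kap' N hNpos]; positivity
  have hk'le : ‖kap' N‖ ≤ ‖kap N‖ := by
    rw [asm_norm_kap N hNpos, asm_norm_kap' N hNpos]; nlinarith
  have hk3 : ‖kap N‖ ≤ 3 * ‖kap' N‖ := by
    rw [asm_norm_kap N hNpos, asm_norm_kap' N hNpos]; nlinarith
  have hd1 : ‖kap N‖ ≤ κ1 := hk.trans ((min_le_left _ _).trans ((min_le_left _ _).trans (min_le_left _ _)))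
  have hd2 : ‖kap N‖ ≤ κ2 := hk.trans ((min_le_left _ _).trans ((min_le_left _ _).trans (min_le_right _ _)))
  have hd4 : ‖kap N‖ ≤ κ4 := hk.trans ((min_le_left _ _).trans ((min_le_right _ _).trans (min_le_left _ _)))
  have hd5 : ‖kap N‖ ≤ κ5 := hk.trans ((min_le_left _ _).trans ((min_le_right _ _).trans (min_le_right _ _)))
  have hd6 : ‖kap N‖ ≤ κ6 := hk.trans ((min_le_right _ _).trans (min_le_left _ _))
  have hd7 : ‖kap N‖ ≤ η / C5 :=
    hk.trans ((min_le_right _ _).trans ((min_le_right _ _).trans (min_le_left _ _)))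
  have hd8 : ‖kap N‖ ≤ 1 / (100 * C5) :=
    hk.trans ((min_le_right _ _).trans ((min_le_right _ _).trans ((min_le_right _ _).trans
      (min_le_left _ _))))
  have hd9 : ‖kap N‖ ≤ 1 / 2 :=
    hk.trans ((min_le_right _ _).trans ((min_le_right _ _).trans ((min_le_right _ _).trans
      (min_le_right _ _))))
  have hC100 : C5 * ‖kap N‖ ≤ 1 / 100 := by
    rw [le_div_iff₀ (by positivity)] at hd8
    linarith
  -- lattice data
  obtain ⟨E, γ, M, G, hLB, hL⟩ := hLAT (kap N) hkpos hd1 (by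
    rw [asm_norm_kap N hNpos, asm_kap_re]; nlinarith)
  obtain ⟨E', γ', M', G', hLB', hL'⟩ := hLAT (kap' N) hk'pos (hk'le.trans hd1) (by
    rw [asm_norm_kap' N hNpos, asm_kap'_re]; nlinarith)
  -- main fixed point
  obtain ⟨t, β, a, b, hF⟩ := hFIX (kap N) hkpos hd2 E γ hLB
  have hF3 : IsFix (kap N) C3 E γ t β a b := hF.mono (le_max_right _ _)
  have hF5 : IsFix (kap N) C5 E γ t β a b := hF3.mono (le_max_left _ _)
  -- second fixed point
  obtain ⟨σ, β', a', b', hE⟩ := hEIG (kap N) (kap' N) hkpos hd4 hk3 hk'le E γ t β a b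
    (hLB.mono (le_max_left _ _)) hF3 E' γ' (hLB'.mono (le_max_left _ _))
  have hE5 : IsEig (kap N) (kap' N) C5 E' γ' t β a b σ β' a' b' := hE.mono (le_max_right _ _)
  -- bounds for t
  have ht1 : |t / ‖kap N‖ - 1 / (2 * Real.sqrt 2 * π)| ≤ 1 / 100 := hF5.tnear.trans hC100
  have hsq2 : 1.41 < Real.sqrt 2 ∧ Real.sqrt 2 < 1.42 := by
    constructor
    · rw [show (1.41 : ℝ) = Real.sqrt (1.41 ^ 2) by rw [Real.sqrt_sq (by norm_num)]]
      exact Real.sqrt_lt_sqrt (by norm_num) (by norm_num)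
    · rw [show (1.42 : ℝ) = Real.sqrt (1.42 ^ 2) by rw [Real.sqrt_sq (by norm_num)]]
      exact Real.sqrt_lt_sqrt (by norm_num) (by norm_num)
  have hpi3 := Real.pi_gt_three
  have hpi4 := Real.pi_lt_d2
  have hden1 : (8 : ℝ) < 2 * Real.sqrt 2 * π := by nlinarith [hsq2.1, hsq2.2]
  have hden2 : 2 * Real.sqrt 2 * π < 9 := by nlinarith [hsq2.1, hsq2.2]
  have htau1 : 1 / 9 < 1 / (2 * Real.sqrt 2 * π) := one_div_lt_one_div_of_lt (by linarith) hden2
  have htau2 : 1 / (2 * Real.sqrt 2 * π) < 1 / 8 := one_div_lt_one_div_of_lt (by norm_num) hden1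
  have hab := abs_le.1 ht1
  have hq1 : 0 < t / ‖kap N‖ := by linarith [hab.1]
  have hq2 : t / ‖kap N‖ < 1 / 4 := by linarith [hab.2]
  have htpos : 0 < t := by
    by_contra hcon
    push Not at hcon
    have : t / ‖kap N‖ ≤ 0 := div_nonpos_of_nonpos_of_nonneg hcon hkpos.le
    linarith
  have htlt : t < 1 / 8 := by
    rw [div_lt_iff₀ hkpos] at hq2
    nlinarith
  -- sum conditions
  have hbs := summable_of_near hF5.bnear
  have has := summable_of_near hF5.anear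
  obtain ⟨hPB, hPL⟩ := hPSI (kap N) C1 E γ M G t β b hLB hL htpos htlt hF5.b0 hbs hF5.one
  obtain ⟨hPB', hPL'⟩ := hPSI (kap' N) C1 E' γ' M' G' t β' b' hLB' hL' htpos htlt hE5.b0
    hE5.bsmall.1 hE5.one
  rw [← hF5.adef] at hPL
  rw [← hE5.adef] at hPL'
  obtain ⟨c, ρ, hc, hcp, hbd, hv⟩ := hBC (kap N) E γ t β a b _ _ hkpos hd5 hF5 hPL
  obtain ⟨hvf, hvn⟩ := hv (kap' N) E' γ' σ β' a' b' _ _ hE5 hPL'
  have hcl := hCL (kap N) E γ t β a b _ _ hkpos hd6 (hLB.mono ((le_max_left _ _).trans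
    (le_max_left _ _))) hF5 hPL
  have ha0 : a 0 = 0 := by rw [hF5.adef]; simp [regC]
  have hho := hHOPF (kap N) t β c a b _ _ ρ htpos htlt ha0 hF5.b0 has hbs hPB hPL hcp hbd
    hF5.theta
  -- sigma
  have hσ : |σ - 1 / 5| ≤ 1 / 100 := by
    have h1 := hE5.σnear
    have h2 : ‖kap' N‖ ^ 2 / ‖kap N‖ ^ 2 = 1 / 5 := by
      rw [asm_norm_kap N hNpos, asm_norm_kap' N hNpos, mul_pow, Real.sq_sqrt (by norm_num)]
      field_simp
    rw [h2] at h1
    exact h1.trans hC100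
  have hσ' := abs_le.1 hσ
  refine ⟨t, c, σ, psiF M G t β b, omF M t β b, psiF M' G' t β' b', omF M' t β' b', ρ, ?_⟩
  exact
    { tpos := htpos
      tlt := htlt
      tnear := hF5.tnear.trans (by
        rw [le_div_iff₀ hC5p] at hd7
        linarith)
      cnear := hc
      psi := hPB
      sphere := hbd.sphere
      ρpos := hbd.ρpos
      ρrot := hbd.ρrot
      ρconj := hbd.ρconj
      free := hbd.free
      hopf := hho
      close := hcl.close
      lip := hcl.lip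
      omclose := hcl.omclose
      vharm := hPB'
      σpos := by linarith [hσ'.1]
      σlt := by linarith [hσ'.2]
      vfree := hvf
      vnear := hvn }

end FB
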