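import Mathlib
import Pool.Agent.FB.Iface2

/-!
# From Theorem M and Theorem GEO to the final statement (MP_15d50e_gt)
-/

open Metric Set Complex InnerProductSpace Laplacian Filter Topology
open scoped ContDiff

namespace FB

/-- Each linear function is a solution of the Steklov problem with `σ = 1`. -/
theorem steklov_coord {n : ℕ} {S : Set (Eu n)} (hS : IsFBMS S) (a : Eu n) :
    IsSteklov S 1 (fun x => inner ℝ a x) := by
  have hL : ∀ (f : ℂ → Eu n) (w : ℂ), ContDiffAt ℝ ∞ f w → Δ f w = 0 →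
      ContDiffAt ℝ ∞ (fun w => inner ℝ a (f w)) w ∧ Δ (fun w => inner ℝ a (f w)) w = 0 := by
    intro f w hf h0
    refine ⟨contDiffAt_const.inner ℝ hf, ?_⟩
    have h2 : ContDiffAt ℝ 2 f w := hf.of_le (by norm_cast)
    have := h2.laplacian_CLM_comp_left (l := innerSL ℝ a)
    have h3 : Δ (fun w => inner ℝ a (f w)) w = (innerSL ℝ a) (Δ f w) := by
      exact this
    rw [h3, h0, map_zero]
  refine ⟨fun x hx hx1 => ?_, fun x hx hx1 => ?_⟩
  · obtain ⟨r, f, hf⟩ := hS.interiorChart x hx hx1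
    exact ⟨r, f, hf, fun w hw => hL f w (hf.smooth w hw.le) (hf.harmonic w hw.le)⟩
  · obtain ⟨r, f, hf⟩ := hS.boundaryChart x hx hx1
    refine ⟨r, f, hf, fun w => inner ℝ a (f w), fun w hw => ?_, fun w hw hw0 => ?_⟩
    · obtain ⟨h1, h2⟩ := hL f w (hf.smooth w hw) (hf.harmonic w hw)
      exact ⟨rfl, h1, h2⟩
    · obtain ⟨l, hl, hfl⟩ := hf.free w hw hw0
      have hnorm : ‖f w‖ = 1 := (hf.sphere w hw).2 hw0
      have hd : HasFDerivAt f (fderiv ℝ f w) w :=
        ((hf.smooth w hw).differentiableAt (by simp)).hasFDerivAt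
      have hd2 : HasFDerivAt (fun w => inner ℝ a (f w)) ((innerSL ℝ a).comp (fderiv ℝ f w)) w :=
        (innerSL ℝ a).hasFDerivAt.comp w hd
      have h1 : fderiv ℝ f w I = -(l • f w) := by rw [← hfl, neg_neg]
      rw [hd2.fderiv]
      simp only [ContinuousLinearMap.comp_apply, innerSL_apply_apply]
      rw [h1, norm_neg, norm_smul, hnorm, Real.norm_of_nonneg hl.le, inner_neg_right, neg_neg,
        inner_smul_right]
      ring

/-- If a linear function that does not vanish identically on the boundary is a solution with `σ`,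
then `σ = 1`. -/
theorem steklov_coord_unique {n : ℕ} {S : Set (Eu n)} {σ : ℝ} {V : Eu n → ℝ} (a : Eu n)
    (hV : IsSteklov S σ V) (hVa : ∀ x ∈ S, V x = inner ℝ a x) (x : Eu n) (hx : x ∈ S)
    (hx1 : ‖x‖ = 1) (hax : inner ℝ a x ≠ (0 : ℝ)) : σ = 1 := by
  obtain ⟨r, f, hf, g, hg, hgf⟩ := hV.2 x hx hx1
  have h0 : (0 : ℂ) ∈ halfDisc r := ⟨by simpa using hf.pos.le, by simp⟩
  obtain ⟨l, hl, hfl⟩ := hf.free 0 h0 (by simp)
  have hnorm : ‖f 0‖ = 1 := (hf.sphere 0 h0).2 (by simp)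
  have h1 : fderiv ℝ f 0 I = -(l • f 0) := by rw [← hfl, neg_neg]
  -- the derivative of g in the direction I
  have hgd : HasFDerivAt g (fderiv ℝ g 0) 0 :=
    ((hg 0 h0).2.1.differentiableAt (by simp)).hasFDerivAt
  have hd : HasFDerivAt f (fderiv ℝ f 0) 0 :=
    ((hf.smooth 0 h0).differentiableAt (by simp)).hasFDerivAt
  have hd2 : HasFDerivAt (fun w => inner ℝ a (f w)) ((innerSL ℝ a).comp (fderiv ℝ f 0)) 0 :=
    (innerSL ℝ a).hasFDerivAt.comp 0 hd
  -- one sided derivatives along the ray s ↦ s I agree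
  obtain ⟨W, hW, hSW⟩ := hf.image
  have hray : HasDerivAt (fun s : ℝ => (s : ℂ) * I) I 0 := by
    have := (Complex.ofRealCLM.hasDerivAt (x := (0 : ℝ))).mul_const I
    simpa using this
  have hgd0 : HasFDerivAt g (fderiv ℝ g 0) (((0 : ℝ) : ℂ) * I) := by simpa using hgd
  have hd20 : HasFDerivAt (fun w => inner ℝ a (f w)) ((innerSL ℝ a).comp (fderiv ℝ f 0))
      (((0 : ℝ) : ℂ) * I) := by simpa using hd2
  have e1 : HasDerivWithinAt (fun s : ℝ => g ((s : ℂ) * I)) (fderiv ℝ g 0 I) (Ici 0) 0 :=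
    (hgd0.comp_hasDerivAt (0 : ℝ) hray).hasDerivWithinAt
  have e2 : HasDerivWithinAt (fun s : ℝ => inner ℝ a (f ((s : ℂ) * I)))
      (inner ℝ a (fderiv ℝ f 0 I)) (Ici 0) 0 := by
    have e20 := (hd20.comp_hasDerivAt (0 : ℝ) hray).hasDerivWithinAt (s := Ici (0 : ℝ))
    exact e20
  have heq : (fun s : ℝ => g ((s : ℂ) * I)) =ᶠ[𝓝[Ici 0] 0] fun s : ℝ => inner ℝ a (f ((s : ℂ) * I)) := by
    have : Iio r ∈ 𝓝[Ici 0] (0 : ℝ) := mem_nhdsWithin_of_mem_nhds (Iio_mem_nhds hf.pos)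
    filter_upwards [this, self_mem_nhdsWithin] with s hs hs0
    have hs0' : (0 : ℝ) ≤ s := hs0
    have hmem : (s : ℂ) * I ∈ halfDisc r := by
      refine ⟨?_, ?_⟩
      · simp only [norm_mul, Complex.norm_real, Complex.norm_I, mul_one]
        rw [Real.norm_of_nonneg hs0']
        exact le_of_lt hs
      · simpa using hs0'
    have hmem2 : f ((s : ℂ) * I) ∈ S := by
      have : f ((s : ℂ) * I) ∈ f '' {w | ‖w‖ < r ∧ 0 ≤ w.im} := by
        refine ⟨_, ⟨?_, ?_⟩, rfl⟩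
        · simp only [norm_mul, Complex.norm_real, Complex.norm_I, mul_one]
          rw [Real.norm_of_nonneg hs0']
          exact hs
        · simpa using hs0'
      rw [← hSW] at this
      exact this.1
    rw [(hg _ hmem).1, hVa _ hmem2]
  have e3 : HasDerivWithinAt (fun s : ℝ => inner ℝ a (f ((s : ℂ) * I)))
      (fderiv ℝ g 0 I) (Ici 0) 0 := by
    refine e1.congr_of_eventuallyEq heq.symm ?_
    have hval : g 0 = inner ℝ a (f 0) := by
      rw [(hg 0 h0).1, hVa]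
      rw [hf.center]; exact hx
    simp only [Complex.ofReal_zero, zero_mul]
    exact hval.symm
  have e4 : fderiv ℝ g 0 I = inner ℝ a (fderiv ℝ f 0 I) := by
    have u : UniqueDiffWithinAt ℝ (Ici (0 : ℝ)) 0 := uniqueDiffWithinAt_Ici 0
    exact u.eq_deriv _ e3 e2
  have h5 := hgf 0 h0 (by simp)
  have hval : g 0 = inner ℝ a (f 0) := by
    rw [(hg 0 h0).1, hVa]
    rw [hf.center]; exact hx
  rw [e4, h1, norm_neg, norm_smul, hnorm, Real.norm_of_nonneg hl.le, inner_neg_right, neg_neg,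
    inner_smul_right, hval, hf.center] at h5
  have h6 : l * inner ℝ a x * (1 - σ) = 0 := by linarith
  have h7 : l * inner ℝ a x ≠ 0 := mul_ne_zero hl.ne' hax
  have h8 : 1 - σ = 0 := by
    rcases mul_eq_zero.1 h6 with h | h
    · exact absurd h h7
    · exact h
  linarith

/-- FINAL FORM. -/
theorem final_of (hM : TheoremM) (hG : TheoremGEO) :
    ∃ S : Set (Eu 8), IsFBMS S ∧ (∀ a : Eu 8, IsSteklov S 1 (fun x => inner ℝ a x)) ∧
      (∃ σ : ℝ, 0 < σ ∧ σ < 1 / 4 ∧ IsSteklovEigenvalue S σ) ∧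
      firstSteklovEigenspace S ≠ coordinateSpan S := by
  obtain ⟨η, N₁, hη, hG⟩ := hG
  obtain ⟨N₀, hM⟩ := hM η hη
  obtain ⟨t, c, σ, ψ, om, v, ν, ρ, hsol⟩ := hM (max N₀ N₁) (le_max_left _ _)
  obtain ⟨hS, hσ⟩ := hG (max N₀ N₁) (le_max_right _ _) t c σ ψ om v ν ρ hsol
  refine ⟨surf c t ψ, hS, fun a => steklov_coord hS a, ⟨σ, hsol.σpos, hsol.σlt, hσ⟩, ?_⟩
  intro heq
  obtain ⟨x, hx, hx1⟩ := hS.boundary
  have hmem : (fun y : surf c t ψ => inner ℝ x (y : Eu 8)) ∈ coordinateSpan (surf c t ψ) :=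
    ⟨x, fun y => rfl⟩
  rw [← heq] at hmem
  obtain ⟨τ, hτ, V, hV, hVe⟩ := hmem
  have hτ1 : τ = 1 := by
    refine steklov_coord_unique x hV (fun y hy => (hVe ⟨y, hy⟩).symm) x hx hx1 ?_
    rw [real_inner_self_eq_norm_sq, hx1]
    norm_num
  have := hτ.2.2 σ hsol.σpos hσ
  linarith [hsol.σlt]

end FB
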