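import Mathlib
import Pool.Agent.FB.Fin

/-!
# Complements to the final statement (MP_15d50e_gt)

* `coordinateSpan_eq_span`: `coordinateSpan S` is the linear span of the `n` coordinate functions.
* `eq_zero_of_boundary`: a linear function which vanishes on the boundary of `S` vanishes on `S`
  (maximum principle).
* `steklov_linear`: a linear function which is not identically zero on `S` is a solution of the
  Steklov problem only for `σ = 1`.
* `eigenspace_inter`: if `S` has a Steklov eigenvalue in `(0, 1)` then the first eigenspace and the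
  span of the coordinate functions have only `0` in common.
-/

open Metric Set Complex InnerProductSpace Laplacian Filter Topology
open scoped ContDiff

namespace FB

/-- `coordinateSpan S` is the linear span of the coordinate functions `x₁|_S, …, x_n|_S`. -/
theorem coordinateSpan_eq_span {n : ℕ} (S : Set (Eu n)) :
    coordinateSpan S =
      (Submodule.span ℝ (Set.range fun (i : Fin n) (x : S) => (x : Eu n) i) : Set (S → ℝ)) := by
  ext v
  rw [SetLike.mem_coe, Submodule.mem_span_range_iff_exists_fun]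
  constructor
  · rintro ⟨a, ha⟩
    refine ⟨fun i => a i, ?_⟩
    funext x
    rw [ha x, Finset.sum_apply]
    simp only [Pi.smul_apply, smul_eq_mul, PiLp.inner_apply]
    refine Finset.sum_congr rfl fun i _ => ?_
    simp [mul_comm]
  · rintro ⟨c, hc⟩
    refine ⟨WithLp.toLp 2 c, fun x => ?_⟩
    rw [← hc, Finset.sum_apply]
    simp only [Pi.smul_apply, smul_eq_mul, PiLp.inner_apply]
    refine Finset.sum_congr rfl fun i _ => ?_
    simp [mul_comm]

/-- The strong maximum principle on a disc. -/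
theorem const_of_max {h : ℂ → ℝ} {r M : ℝ} (hr : 0 < r)
    (hs : ∀ w : ℂ, ‖w‖ < r → ContDiffAt ℝ ∞ h w) (hh : ∀ w : ℂ, ‖w‖ < r → Δ h w = 0)
    (hM : ∀ w : ℂ, ‖w‖ < r → h w ≤ M) (h0 : h 0 = M) : ∀ w : ℂ, ‖w‖ < r → h w = M := by
  have hharm : HarmonicOnNhd h (ball (0 : ℂ) r) := by
    intro w hw
    have hw' : ‖w‖ < r := by simpa using hw
    refine ⟨(hs w hw').of_le (by norm_cast), ?_⟩
    filter_upwards [isOpen_ball.mem_nhds hw] with z hz
    exact hh z (by simpa using hz)
  obtain ⟨F, hF, hFh⟩ := hharm.exists_analyticOnNhd_ball_re_eq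
  have hd : DifferentiableOn ℂ (fun z => cexp (F z)) (ball (0 : ℂ) r) :=
    hF.differentiableOn.cexp
  have hn : ∀ z ∈ ball (0 : ℂ) r, ‖cexp (F z)‖ = Real.exp (h z) := by
    intro z hz
    rw [Complex.norm_exp, ← hFh hz]
  have h0m : (0 : ℂ) ∈ ball (0 : ℂ) r := mem_ball_self hr
  have hmax : IsMaxOn (norm ∘ fun z => cexp (F z)) (ball (0 : ℂ) r) 0 := by
    intro z hz
    show ‖cexp (F z)‖ ≤ ‖cexp (F 0)‖
    rw [hn z hz, hn 0 h0m, h0]
    exact Real.exp_le_exp.2 (hM z (by simpa using hz))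
  have heq := Complex.eqOn_of_isPreconnected_of_isMaxOn_norm
    (convex_ball (0 : ℂ) r).isPreconnected isOpen_ball hd h0m hmax
  intro w hw
  have hwm : w ∈ ball (0 : ℂ) r := by simpa using hw
  have h1 : cexp (F w) = cexp (F 0) := heq hwm
  have h2 : Real.exp (h w) = Real.exp (h 0) := by rw [← hn w hwm, ← hn 0 h0m, h1]
  rw [Real.exp_injective h2, h0]

/-- A linear function attains its maximum over `S` on the boundary. -/
theorem exists_boundary_max {n : ℕ} {S : Set (Eu n)} (hS : IsFBMS S) (a : Eu n) :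
    ∃ y ∈ S, ‖y‖ = 1 ∧ ∀ x ∈ S, (inner ℝ a x : ℝ) ≤ inner ℝ a y := by
  have hc : Continuous fun x : Eu n => (inner ℝ a x : ℝ) := continuous_const.inner continuous_id
  obtain ⟨x0, hx0, hmax⟩ := hS.compact.exists_isMaxOn hS.connected.nonempty hc.continuousOn
  by_contra hcon
  push Not at hcon
  have hle : ∀ x ∈ S, (inner ℝ a x : ℝ) ≤ inner ℝ a x0 := fun x hx => hmax hx
  -- every maximum point is interior
  have hint : ∀ x ∈ S, (inner ℝ a x : ℝ) = inner ℝ a x0 → ‖x‖ < 1 := by
    intro x hx hxM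
    refine lt_of_le_of_ne (hS.ball x hx) fun h1 => ?_
    obtain ⟨z, hz, hz1⟩ := hcon x hx h1
    rw [hxM] at hz1
    exact absurd (hle z hz) (not_le.2 hz1)
  have : PreconnectedSpace S := isPreconnected_iff_preconnectedSpace.1 hS.connected.isPreconnected
  have hclopen : IsClopen {x : S | (inner ℝ a (x : Eu n) : ℝ) = inner ℝ a x0} := by
    refine ⟨isClosed_eq (hc.comp continuous_subtype_val) continuous_const, ?_⟩
    rw [isOpen_iff_mem_nhds]
    intro x hx
    obtain ⟨r, f, hf⟩ := hS.interiorChart x x.2 (hint x x.2 hx)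
    obtain ⟨V, hV, hSV⟩ := hf.image
    have hfS : ∀ w : ℂ, ‖w‖ < r → f w ∈ S := by
      intro w hw
      have h1 : f w ∈ S ∩ V := by rw [hSV]; exact ⟨w, hw, rfl⟩
      exact h1.1
    have hconst : ∀ w : ℂ, ‖w‖ < r → (inner ℝ a (f w) : ℝ) = inner ℝ a x0 := by
      refine const_of_max (h := fun w => (inner ℝ a (f w) : ℝ)) hf.pos ?_ ?_ ?_ ?_
      · intro w hw
        exact contDiffAt_const.inner ℝ (hf.smooth w hw.le)
      · intro w hw
        have h2 : ContDiffAt ℝ 2 f w := (hf.smooth w hw.le).of_le (by norm_cast)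
        have h3 := h2.laplacian_CLM_comp_left (l := innerSL ℝ a)
        have h4 : Δ (fun w => (inner ℝ a (f w) : ℝ)) w = (innerSL ℝ a) (Δ f w) := h3
        rw [h4, hf.harmonic w hw.le, map_zero]
      · intro w hw
        exact hle _ (hfS w hw)
      · show (inner ℝ a (f 0) : ℝ) = _
        rw [hf.center]
        exact hx
    have hxV : (x : Eu n) ∈ V := by
      have h1 : (x : Eu n) ∈ S ∩ V := by
        rw [hSV]
        exact ⟨0, by simpa using hf.pos, hf.center⟩
      exact h1.2
    filter_upwards [(hV.preimage continuous_subtype_val).mem_nhds hxV] with y hy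
    have h1 : (y : Eu n) ∈ S ∩ V := ⟨y.2, hy⟩
    rw [hSV] at h1
    obtain ⟨w, hw, hwy⟩ := h1
    show (inner ℝ a (y : Eu n) : ℝ) = _
    rw [← hwy]
    exact hconst w hw
  have huniv := hclopen.eq_univ ⟨⟨x0, hx0⟩, rfl⟩
  obtain ⟨y, hy, hy1⟩ := hS.boundary
  have hyM : (⟨y, hy⟩ : S) ∈ {x : S | (inner ℝ a (x : Eu n) : ℝ) = inner ℝ a x0} := by
    rw [huniv]; trivial
  exact absurd (hint y hy hyM) (by rw [hy1]; exact lt_irrefl 1)

/-- A linear function which vanishes on the boundary of `S` vanishes on `S`. -/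
theorem eq_zero_of_boundary {n : ℕ} {S : Set (Eu n)} (hS : IsFBMS S) (a : Eu n)
    (h : ∀ x ∈ S, ‖x‖ = 1 → (inner ℝ a x : ℝ) = 0) : ∀ x ∈ S, (inner ℝ a x : ℝ) = 0 := by
  intro x hx
  obtain ⟨y, hy, hy1, hmax⟩ := exists_boundary_max hS a
  obtain ⟨z, hz, hz1, hmin⟩ := exists_boundary_max hS (-a)
  have h1 := hmax x hx
  have h2 := hmin x hx
  rw [h y hy hy1] at h1
  simp only [inner_neg_left] at h2
  rw [h z hz hz1] at h2
  linarith

/-- A linear function which is not identically zero on `S` is a solution of the Steklov problem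
only for `σ = 1`. -/
theorem steklov_linear {n : ℕ} {S : Set (Eu n)} (hS : IsFBMS S) {σ : ℝ} {V : Eu n → ℝ} (a : Eu n)
    (hV : IsSteklov S σ V) (hVa : ∀ x ∈ S, V x = inner ℝ a x)
    (hne : ∃ x ∈ S, (inner ℝ a x : ℝ) ≠ 0) : σ = 1 := by
  by_contra hσ
  obtain ⟨x, hx, hx0⟩ := hne
  refine hx0 (eq_zero_of_boundary hS a (fun y hy hy1 => ?_) x hx)
  by_contra hy0
  exact hσ (steklov_coord_unique a hV hVa y hy hy1 hy0)

/-- If `S` has a Steklov eigenvalue in `(0, 1)`, then the first Steklov eigenspace and the span of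
the coordinate functions have only the zero function in common. -/
theorem eigenspace_inter {n : ℕ} {S : Set (Eu n)} (hS : IsFBMS S)
    (hσ : ∃ σ : ℝ, 0 < σ ∧ σ < 1 ∧ IsSteklovEigenvalue S σ) {v : S → ℝ}
    (hv : v ∈ firstSteklovEigenspace S) (hv' : v ∈ coordinateSpan S) : v = 0 := by
  obtain ⟨σ, hσ0, hσ1, hσe⟩ := hσ
  obtain ⟨τ, hτ, V, hV, hVe⟩ := hv
  obtain ⟨a, ha⟩ := hv'
  by_contra hne
  have hex : ∃ x ∈ S, (inner ℝ a x : ℝ) ≠ 0 := by
    by_contra hcon
    push Not at hcon
    refine hne ?_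
    funext x
    rw [ha x]
    exact hcon x x.2
  have h1 : τ = 1 := by
    refine steklov_linear hS a hV (fun x hx => ?_) hex
    rw [← hVe ⟨x, hx⟩]
    exact ha ⟨x, hx⟩
  have h2 := hτ.2.2 σ hσ0 hσe
  linarith

/-- The span of the coordinate functions is not `{0}` (there are boundary points), so it differs
from the first Steklov eigenspace. -/
theorem eigenspace_ne {n : ℕ} {S : Set (Eu n)} (hS : IsFBMS S)
    (hσ : ∃ σ : ℝ, 0 < σ ∧ σ < 1 ∧ IsSteklovEigenvalue S σ) :
    firstSteklovEigenspace S ≠ coordinateSpan S := by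
  intro heq
  obtain ⟨x, hx, hx1⟩ := hS.boundary
  have hmem : (fun y : S => (inner ℝ x (y : Eu n) : ℝ)) ∈ coordinateSpan S := ⟨x, fun y => rfl⟩
  have h0 := eigenspace_inter hS hσ (by rw [heq]; exact hmem) hmem
  have h1 := congrFun h0 ⟨x, hx⟩
  simp only [Pi.zero_apply, real_inner_self_eq_norm_sq, hx1] at h1
  norm_num at h1

end FB
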